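import Pool.Agent.Helper95.HS.GoalsA

/-!
# Packet HS LPQ: `L^p` bounds for quasi-plurisubharmonic functions
-/

set_option autoImplicit false

open Complex Metric Set Filter Topology MeasureTheory
open scoped ContDiff ComplexConjugate ComplexOrder Manifold Matrix

namespace Pool.Agent.Helper85.HS

open Pool.Agent.Helper95.Lin Pool.Agent.Helper16.Abund Pool.Agent.Helper10.SP
  Pool.Agent.Helper57.HS Pool.Agent.Helper95.HS

universe u

variable {n : ℕ}

/-- The class of functions. -/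
structure Cls (T : Set (Cn n)) (H : Cn n → Matrix (Fin n) (Fin n) ℂ) (a : ℝ) (w : Cn n → ℝ) :
    Prop where
  smooth : ContDiffOn ℝ ∞ w T
  psd : ∀ x ∈ T, ((a : ℂ) • H x + LM w x).PosSemidef
  le : ∀ x ∈ T, w x ≤ 0

theorem Cls.cont {T : Set (Cn n)} {H : Cn n → Matrix (Fin n) (Fin n) ℂ} {a : ℝ} {w : Cn n → ℝ}
    (h : Cls T H a w) (p : ℕ) : ContinuousOn (fun x => (- w x) ^ p) T :=
  h.smooth.continuousOn.neg.pow p

/-- The local estimate, for a small closed ball. -/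
theorem loc (hLPL : S_LPL.{u}) (T : Set (Cn n)) {G : Type u} [Group G]
    (R : G → Cn n → Cn n → Prop) (H : Cn n → Matrix (Fin n) (Fin n) ℂ) (hK : KEt T R H)
    (a : ℝ) (p : ℕ) (hp : 1 ≤ p) (x₀ : Cn n) (hx₀ : x₀ ∈ T) : ∃ r > 0, closedBall x₀ r ⊆ T ∧
    ∃ C : ℝ, 0 ≤ C ∧ ∀ w : Cn n → ℝ, Cls T H a w → ∀ B : ℝ, 0 ≤ B →
      (∃ y ∈ ball x₀ r, - w y ≤ B) → ∫ x in ball x₀ r, (- w x) ^ p ≤ C * (1 + B) ^ p := by
  obtain ⟨r, hr, hrT, C, hC⟩ := hLPL T R H hK a p hp x₀ hx₀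
  refine ⟨r / 2, by positivity, (closedBall_subset_ball (by linarith)).trans hrT, max C 0,
    le_max_right _ _, ?_⟩
  rintro w hw B hB ⟨y, hy, hyB⟩
  have h1 := hC w hw.smooth hw.psd hw.le (r / 2) (by positivity) (by linarith) y hy
  have hyT : y ∈ T := hrT (ball_subset_ball (by linarith) hy)
  have h2 : 0 ≤ 1 - w y := by
    have := hw.le y hyT
    linarith
  calc ∫ x in ball x₀ (r / 2), (- w x) ^ p ≤ C * (1 - w y) ^ p := h1
    _ ≤ max C 0 * (1 - w y) ^ p := mul_le_mul_of_nonneg_right (le_max_left _ _) (by positivity)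
    _ ≤ max C 0 * (1 + B) ^ p :=
        mul_le_mul_of_nonneg_left (pow_le_pow_left₀ h2 (by linarith) p) (le_max_right _ _)

/-- A bound for the integral gives a point with a small value in every open set. -/
theorem point {T : Set (Cn n)} {H : Cn n → Matrix (Fin n) (Fin n) ℂ} {a : ℝ} {p : ℕ} (hp : 1 ≤ p)
    {x₀ : Cn n} {r : ℝ} (hrT : closedBall x₀ r ⊆ T) (M : ℝ) (N : Set (Cn n)) (hN : IsOpen N)
    (hNne : N.Nonempty) (hNs : N ⊆ ball x₀ r) : ∃ B' : ℝ, 0 ≤ B' ∧ ∀ w : Cn n → ℝ, Cls T H a w →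
      ∫ x in ball x₀ r, (- w x) ^ p ≤ M → ∃ y ∈ N, - w y ≤ B' := by
  have hvol : 0 < volume.real N := by
    rw [Measure.real, ENNReal.toReal_pos_iff]
    refine ⟨hN.measure_pos _ hNne, ?_⟩
    exact (measure_mono hNs).trans_lt measure_ball_lt_top
  refine ⟨max M 0 / volume.real N + 1, by positivity, fun w hw hM => ?_⟩
  by_contra hcon
  push Not at hcon
  have hint : IntegrableOn (fun x => (- w x) ^ p) (closedBall x₀ r) :=
    ((hw.cont p).mono hrT).integrableOn_compact (isCompact_closedBall x₀ r)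
  have hint2 : IntegrableOn (fun x => (- w x) ^ p) (ball x₀ r) :=
    hint.mono_set ball_subset_closedBall
  have hnn : ∀ x ∈ ball x₀ r, 0 ≤ (- w x) ^ p := fun x hx =>
    pow_nonneg (neg_nonneg.2 (hw.le x (hrT (ball_subset_closedBall hx)))) p
  have h1 : ∫ x in N, (- w x) ^ p ≤ ∫ x in ball x₀ r, (- w x) ^ p := by
    refine setIntegral_mono_set hint2 ?_ (Eventually.of_forall hNs)
    exact (ae_restrict_iff' measurableSet_ball).2 (Eventually.of_forall hnn)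
  obtain ⟨B', hB'⟩ : ∃ B' : ℝ, B' = max M 0 / volume.real N + 1 := ⟨_, rfl⟩
  have hB1 : 1 ≤ B' := by
    rw [hB']
    have : 0 ≤ max M 0 / volume.real N := by positivity
    linarith
  have h2 : ∫ _ in N, B' ≤ ∫ x in N, (- w x) ^ p := by
    refine setIntegral_mono_on ?_ (hint2.mono_set hNs) hN.measurableSet fun x hx => ?_
    · exact integrableOn_const ((measure_mono hNs).trans_lt measure_ball_lt_top).ne
    · have h3 : B' < - w x := by
        rw [hB']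
        exact hcon x hx
      calc B' = B' ^ 1 := (pow_one _).symm
        _ ≤ B' ^ p := pow_le_pow_right₀ hB1 hp
        _ ≤ (- w x) ^ p := pow_le_pow_left₀ (by linarith) h3.le p
  rw [setIntegral_const, smul_eq_mul, hB', mul_add, mul_div_cancel₀ _ hvol.ne'] at h2
  have h3 : M ≤ max M 0 := le_max_left _ _
  linarith

/-- The bound near one point. -/
theorem key (hLPL : S_LPL.{u}) (hDETI : S_DETI.{u}) (T : Set (Cn n)) {G : Type u} [Group G]
    (R : G → Cn n → Cn n → Prop) (H : Cn n → Matrix (Fin n) (Fin n) ℂ) (hK : KEt T R H)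
    (κ : Cn n → ℝ) (hκ : IsPUE T R κ) (a : ℝ) (p : ℕ) (hp : 1 ≤ p) (x₀ : Cn n) (hx₀ : x₀ ∈ T) :
    ∃ r > 0, ∃ C : ℝ, 0 ≤ C ∧ ∀ w : Cn n → ℝ, InvF T R w → Cls T H a w →
      (∃ x ∈ ball x₀ r, w x = 0) → ∫ x in T, κ x * (H x).det.re * (- w x) ^ p ≤ C := by
  obtain ⟨hdet, hdets, -⟩ := hDETI T R H hK
  obtain ⟨r₀, hr₀, hr₀T, C₀, hC₀, hloc₀⟩ := loc hLPL T R H hK a p hp x₀ hx₀
  obtain ⟨P, hP⟩ : ∃ P : (Cn n → ℝ) → Prop, P = fun w => InvF T R w ∧ Cls T H a w ∧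
    ∃ x ∈ ball x₀ r₀, w x = 0 := ⟨_, rfl⟩
  have hTo := hK.et.isOpen
  -- the good set
  obtain ⟨S, hS⟩ : ∃ S : Set (Cn n), S = {x | x ∈ T ∧ ∀ N ∈ 𝓝 x, ∃ B : ℝ, 0 ≤ B ∧
    ∀ w, P w → ∃ y ∈ N, y ∈ T ∧ - w y ≤ B} := ⟨_, rfl⟩
  have hST : S ⊆ T := by
    rw [hS]
    exact fun x hx => hx.1
  -- spreading in a ball
  have spread : ∀ x r, closedBall x r ⊆ T → ∀ M : ℝ,
      (∀ w, P w → ∫ y in ball x r, (- w y) ^ p ≤ M) → ball x r ⊆ S := by
    intro x r hr M hM z hz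
    rw [hS]
    refine ⟨hr (ball_subset_closedBall hz), fun N hN => ?_⟩
    have hz' : z ∈ interior N ∩ ball x r := ⟨mem_interior_iff_mem_nhds.2 hN, hz⟩
    obtain ⟨B', hB', h1⟩ := point (T := T) (H := H) (a := a) hp hr M (interior N ∩ ball x r)
      (isOpen_interior.inter isOpen_ball) ⟨z, hz'⟩ inter_subset_right
    refine ⟨B', hB', fun w hw => ?_⟩
    have hw' := hw
    rw [hP] at hw'
    obtain ⟨y, hy, hyB⟩ := h1 w hw'.2.1 (hM w hw)
    exact ⟨y, interior_subset hy.1, hr (ball_subset_closedBall hy.2), hyB⟩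
  have hx₀S : x₀ ∈ S := by
    refine spread x₀ r₀ hr₀T (C₀ * (1 + 0) ^ p) (fun w hw => ?_) (mem_ball_self hr₀)
    rw [hP] at hw
    obtain ⟨-, hw, x, hx, hx0⟩ := hw
    exact hloc₀ w hw 0 le_rfl ⟨x, hx, by rw [hx0, neg_zero]⟩
  -- local bounds near good points
  have hgood : ∀ x ∈ S, ∃ r > 0, closedBall x r ⊆ T ∧ ∃ M : ℝ, 0 ≤ M ∧
      ∀ w, P w → ∫ y in ball x r, (- w y) ^ p ≤ M := by
    intro x hx
    obtain ⟨r, hr, hrT, C, hC, hloc⟩ := loc hLPL T R H hK a p hp x (hST hx)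
    rw [hS] at hx
    obtain ⟨B, hB, h1⟩ := hx.2 (ball x r) (ball_mem_nhds x hr)
    refine ⟨r, hr, hrT, C * (1 + B) ^ p, by positivity, fun w hw => ?_⟩
    obtain ⟨y, hy, -, hyB⟩ := h1 w hw
    rw [hP] at hw
    exact hloc w hw.2.1 B hB ⟨y, hy, hyB⟩
  have hSo : IsOpen S := by
    rw [isOpen_iff_mem_nhds]
    intro x hx
    obtain ⟨r, hr, hrT, M, -, hM⟩ := hgood x hx
    exact mem_of_superset (ball_mem_nhds x hr) (spread x r hrT M hM)
  have hSc : IsOpen (T \ S) := by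
    rw [isOpen_iff_mem_nhds]
    rintro x ⟨hxT, hxS⟩
    have h1 : ∃ N ∈ 𝓝 x, ¬ ∃ B : ℝ, 0 ≤ B ∧ ∀ w, P w → ∃ y ∈ N, y ∈ T ∧ - w y ≤ B := by
      by_contra hcon
      push Not at hcon
      apply hxS
      rw [hS]
      exact ⟨hxT, hcon⟩
    obtain ⟨N, hN, hNB⟩ := h1
    refine mem_of_superset (inter_mem (hTo.mem_nhds hxT) (interior_mem_nhds.2 hN)) ?_
    rintro z ⟨hzT, hzN⟩
    refine ⟨hzT, fun hzS => hNB ?_⟩
    rw [hS] at hzS
    exact hzS.2 N (mem_interior_iff_mem_nhds.1 hzN)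
  have hinv1 : ∀ γ x y, R γ x y → x ∈ S → y ∈ S := by
    intro γ x y hxy hx
    rw [hS] at hx ⊢
    refine ⟨(hK.et.mem γ x y hxy).2, fun N hN => ?_⟩
    obtain ⟨τ, U, W, hU, hW, hxU, hyW, hUT, hWT, hτ, -, hmaps, -, hiff⟩ := hK.et.loc γ x y hxy
    have hτx : τ x = y := ((hiff x hxU y hyW).1 hxy).symm
    have hcont : ContinuousAt τ x := (hτ.continuousOn.continuousAt (hU.mem_nhds hxU))
    have h1 : τ ⁻¹' N ∈ 𝓝 x := hcont (by rw [hτx]; exact hN)
    obtain ⟨B, hB, h2⟩ := hx.2 (U ∩ τ ⁻¹' N) (inter_mem (hU.mem_nhds hxU) h1)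
    refine ⟨B, hB, fun w hw => ?_⟩
    obtain ⟨z, ⟨hzU, hzN⟩, hzT, hzB⟩ := h2 w hw
    have h3 : R γ z (τ z) := (hiff z hzU (τ z) (hmaps hzU)).2 rfl
    rw [hP] at hw
    have h4 : w (τ z) = w z := hw.1.2 γ z (τ z) h3
    exact ⟨τ z, hzN, hWT (hmaps hzU), by rw [h4]; exact hzB⟩
  have hSeq : S = T := by
    rcases hK.et.conn S hST hSo hSc fun γ x y hxy =>
      ⟨hinv1 γ x y hxy, hinv1 γ⁻¹ y x (hK.et.inv γ x y hxy)⟩ with h | h
    · rw [h] at hx₀S
      exact absurd hx₀S (notMem_empty _)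
    · exact h
  refine ⟨r₀, hr₀, ?_⟩
  -- the integrand
  obtain ⟨F, hF⟩ : ∃ F : (Cn n → ℝ) → Cn n → ℝ, F = fun w x => κ x * (H x).det.re * (- w x) ^ p :=
    ⟨_, rfl⟩
  obtain ⟨hκs, hκc, hκT⟩ := hκ.test
  have hFnn : ∀ w, P w → ∀ x ∈ T, 0 ≤ F w x := by
    intro w hw x hx
    rw [hP] at hw
    rw [hF]
    exact mul_nonneg (mul_nonneg (hκ.nonneg x) (hdet x hx).2.1.le)
      (pow_nonneg (neg_nonneg.2 (hw.2.1.le x hx)) p)
  have hcov : ∃ C : NNReal, ∀ w, P w → ∫⁻ x in tsupport κ, ENNReal.ofReal (F w x) ≤ C := by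
    refine IsCompact.induction_on (p := fun s => ∃ C : NNReal, ∀ w, P w →
      ∫⁻ x in s, ENNReal.ofReal (F w x) ≤ C) hκc ?_ ?_ ?_ ?_
    · exact ⟨0, fun w _ => by simp⟩
    · rintro s t hst ⟨C, hC⟩
      exact ⟨C, fun w hw => (lintegral_mono_set hst).trans (hC w hw)⟩
    · rintro s t ⟨C, hC⟩ ⟨C', hC'⟩
      refine ⟨C + C', fun w hw => (lintegral_union_le _ s t).trans ?_⟩
      rw [ENNReal.coe_add]
      exact add_le_add (hC w hw) (hC' w hw)
    · intro x hx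
      obtain ⟨r, hr, hrT, M, hM0, hM⟩ := hgood x (by rw [hSeq]; exact hκT hx)
      -- bound for the density
      have hc : ContinuousOn (fun y => κ y * (H y).det.re) (closedBall x r) :=
        (hκs.continuous.continuousOn.mul hdets.continuousOn).mono hrT
      obtain ⟨D, hD⟩ := (isCompact_closedBall x r).exists_bound_of_continuousOn hc
      refine ⟨ball x r, mem_nhdsWithin_of_mem_nhds (ball_mem_nhds x hr),
        Real.toNNReal (max D 0 * M), fun w hw => ?_⟩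
      have hw' := hw
      rw [hP] at hw'
      have hint : IntegrableOn (fun x => (- w x) ^ p) (ball x r) :=
        (((hw'.2.1.cont p).mono hrT).integrableOn_compact
          (isCompact_closedBall x r)).mono_set ball_subset_closedBall
      have hnn : ∀ y ∈ ball x r, 0 ≤ (- w y) ^ p := fun y hy =>
        pow_nonneg (neg_nonneg.2 (hw'.2.1.le y (hrT (ball_subset_closedBall hy)))) p
      have h1 : ∫⁻ y in ball x r, ENNReal.ofReal (F w y) ≤
          ∫⁻ y in ball x r, ENNReal.ofReal (max D 0 * (- w y) ^ p) := by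
        refine setLIntegral_mono' measurableSet_ball fun y hy => ENNReal.ofReal_le_ofReal ?_
        rw [hF]
        refine mul_le_mul_of_nonneg_right ?_ (hnn y hy)
        exact ((le_abs_self _).trans (hD y (ball_subset_closedBall hy))).trans (le_max_left _ _)
      refine h1.trans ?_
      rw [← ofReal_integral_eq_lintegral_ofReal (hint.const_mul _) ?_, integral_const_mul]
      · exact ENNReal.ofReal_le_ofReal (mul_le_mul_of_nonneg_left (hM w hw) (le_max_right _ _))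
      · refine (ae_restrict_iff' measurableSet_ball).2 (Eventually.of_forall fun y hy => ?_)
        exact mul_nonneg (le_max_right _ _) (hnn y hy)
  obtain ⟨C, hC⟩ := hcov
  refine ⟨C, C.2, fun w hw1 hw2 hw3 => ?_⟩
  have hw : P w := by
    rw [hP]
    exact ⟨hw1, hw2, hw3⟩
  have hFc : ContinuousOn (F w) T := by
    rw [hF]
    exact (hκs.continuous.continuousOn.mul hdets.continuousOn).mul (hw2.cont p)
  have h1 : ∫ x in T, F w x = (∫⁻ x in T, ENNReal.ofReal (F w x)).toReal := by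
    refine integral_eq_lintegral_of_nonneg_ae ?_ (hFc.aestronglyMeasurable hTo.measurableSet)
    exact (ae_restrict_iff' hTo.measurableSet).2 (Eventually.of_forall fun x hx => hFnn w hw x hx)
  have h2 : ∫⁻ x in T, ENNReal.ofReal (F w x) ≤ ∫⁻ x in tsupport κ, ENNReal.ofReal (F w x) := by
    have h3 : ∀ x, ENNReal.ofReal (F w x) =
        (tsupport κ).indicator (fun x => ENNReal.ofReal (F w x)) x := by
      intro x
      by_cases hx : x ∈ tsupport κ
      · rw [indicator_of_mem hx]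
      · rw [indicator_of_notMem hx, hF]
        simp only
        rw [image_eq_zero_of_notMem_tsupport hx]
        simp
    calc ∫⁻ x in T, ENNReal.ofReal (F w x)
        = ∫⁻ x in T, (tsupport κ).indicator (fun x => ENNReal.ofReal (F w x)) x :=
          lintegral_congr fun x => h3 x
      _ ≤ ∫⁻ x, (tsupport κ).indicator (fun x => ENNReal.ofReal (F w x)) x :=
          setLIntegral_le_lintegral _ _
      _ = _ := lintegral_indicator (isClosed_tsupport κ).measurableSet _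
  have h4 : ∫ x in T, κ x * (H x).det.re * (- w x) ^ p = ∫ x in T, F w x := by rw [hF]
  rw [h4, h1]
  exact ENNReal.toReal_le_coe_of_le_coe (h2.trans (hC w hw))

/-- **Packet LPQ.** -/
theorem lpq (hLPL : S_LPL.{u}) (hDETI : S_DETI.{u}) : S_LPQ.{u} := by
  intro n T G _ R H hK κ hκ a p hp
  obtain ⟨C, hCT, hCc, hcoc⟩ := hK.et.coc
  have h1 : ∃ M : ℝ, 0 ≤ M ∧ ∀ w : Cn n → ℝ, InvF T R w → Cls T H a w → (∃ x ∈ C, w x = 0) →
      ∫ x in T, κ x * (H x).det.re * (- w x) ^ p ≤ M := by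
    refine IsCompact.induction_on (p := fun s => ∃ M : ℝ, 0 ≤ M ∧ ∀ w : Cn n → ℝ,
      InvF T R w → Cls T H a w → (∃ x ∈ s, w x = 0) →
      ∫ x in T, κ x * (H x).det.re * (- w x) ^ p ≤ M) hCc ?_ ?_ ?_ ?_
    · exact ⟨0, le_rfl, fun w _ _ h => by obtain ⟨x, hx, -⟩ := h; exact absurd hx (notMem_empty _)⟩
    · rintro s t hst ⟨M, hM0, hM⟩
      exact ⟨M, hM0, fun w h1 h2 ⟨x, hx, hx0⟩ => hM w h1 h2 ⟨x, hst hx, hx0⟩⟩
    · rintro s t ⟨M, hM0, hM⟩ ⟨M', hM0', hM'⟩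
      refine ⟨M + M', add_nonneg hM0 hM0', fun w h1 h2 ⟨x, hx, hx0⟩ => ?_⟩
      rcases hx with hx | hx
      · have := hM w h1 h2 ⟨x, hx, hx0⟩
        linarith
      · have := hM' w h1 h2 ⟨x, hx, hx0⟩
        linarith
    · intro x hx
      obtain ⟨r, hr, M, hM0, hM⟩ := key hLPL hDETI T R H hK κ hκ a p hp x (hCT hx)
      exact ⟨ball x r, mem_nhdsWithin_of_mem_nhds (ball_mem_nhds x hr), M, hM0, hM⟩
  obtain ⟨M, -, hM⟩ := h1
  refine ⟨M, fun w hw hpsd hle h0 => ?_⟩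
  obtain ⟨x, hx, hx0⟩ := h0
  obtain ⟨γ, y, hy, hR⟩ := hcoc x hx
  exact hM w hw ⟨hw.1, hpsd, hle⟩ ⟨y, hy, by rw [hw.2 γ x y hR, hx0]⟩

end Pool.Agent.Helper85.HS
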